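import Pool.Agent.helper10.V3.HandInStrip
import Pool.Agent.helper54.V3.All

/-!
# A universal gap for the multipliers of `z ^ n + c` at a distance from the hyperbolic parameters

`multibrot n` (`M_n`) and `hyperbolic n` (`H_n`) are defined in
`Pool/Agent/helper16/Multibrot/Defs.lean`.
-/

set_option autoImplicit false

namespace Pool.Agent.Results.MP_af9036_an.UniversalGap

open Pool.Agent.helper16.Multibrot

/-- The derivative at `z` of the `k`-th iterate of `w ^ n + c`. -/
noncomputable def multiplier (n k : ℕ) (c z : ℂ) : ℂ := deriv ((fun w : ℂ => w ^ n + c)^[k]) z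

/-- `z` is a periodic point of `w ^ n + c` of exact period `k ≥ 1`. -/
def Cycle (n k : ℕ) (c z : ℂ) : Prop :=
  0 < k ∧ Function.minimalPeriod (fun w : ℂ => w ^ n + c) z = k

/-- If `c` has distance at least `r` from the hyperbolic parameters then all cycles of `z ^ n + c`,
of all periods, have multipliers of modulus at least `1 + δ`, where `δ > 0` depends only on `n` and
`r`. This comes from a strip `1 < |ρ| < 1 + ε` of width independent of the period in which the
multiplier maps `ρ(c)` of all holomorphic families of cycles have no critical points: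
`K log |ρ| ≤ |ρ' / ρ|` there, and `K |ρ - 1| ≤ |ρ'|` near `ρ = 1`. If the direction of `ρ` is not
close to `1` then `log |ρ|` and `|ρ' / ρ|` are not both small, and the distance of `c` to the
hyperbolic parameters is at most a constant times `log |ρ|`. -/
theorem result : ∀ n : ℕ, 2 ≤ n →
    (∀ r > (0 : ℝ), ∃ δ > (0 : ℝ), ∀ c : ℂ, (∀ c' ∈ hyperbolic n, r ≤ ‖c' - c‖) →
      ∀ (k : ℕ) (z : ℂ), Cycle n k c z → 1 + δ ≤ ‖multiplier n k c z‖) ∧
    (∀ K > (0 : ℝ), ∃ ε > (0 : ℝ), ∀ (k : ℕ) (U : Set ℂ) (Z : ℂ → ℂ), IsOpen U →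
      DifferentiableOn ℂ Z U → (∀ c ∈ U, Cycle n k c (Z c)) →
      ∀ c ∈ U, 1 < ‖multiplier n k c (Z c)‖ → ‖multiplier n k c (Z c)‖ < 1 + ε →
        K * Real.log ‖multiplier n k c (Z c)‖ ≤
          ‖deriv (fun c' => multiplier n k c' (Z c')) c / multiplier n k c (Z c)‖ ∧
        (‖multiplier n k c (Z c) - 1‖ < ε → K * ‖multiplier n k c (Z c) - 1‖ ≤
          ‖deriv (fun c' => multiplier n k c' (Z c')) c‖)) ∧
    (∀ d > (0 : ℝ), ∃ K : ℝ, ∀ (k : ℕ) (c z : ℂ), Cycle n k c z →
      1 < ‖multiplier n k c z‖ → d ≤ ‖multiplier n k c z / ‖multiplier n k c z‖ - 1‖ →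
        (c ∈ multibrot n →
          Metric.infDist c (hyperbolic n) ≤ K * Real.log ‖multiplier n k c z‖) ∧
        (∀ (U : Set ℂ) (Z : ℂ → ℂ), IsOpen U → c ∈ U → DifferentiableOn ℂ Z U → Z c = z →
          (∀ c' ∈ U, Cycle n k c' (Z c')) →
          1 ≤ K * (Real.log ‖multiplier n k c z‖ +
            ‖deriv (fun c' => multiplier n k c' (Z c')) c / multiplier n k c z‖))) :=
  fun n hn => V3F.of_all V3A.FV_v V3A.FW_v n hn

end Pool.Agent.Results.MP_af9036_an.UniversalGap
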